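import Pool.Agent.W982.TA.All

/-!
# Computing a min-max area triangulation is NP-hard

A *triangulation* of a finite set `S` of points of the plane (with rational coordinates) is a
maximal family of pairwise non-crossing straight-line segments with endpoints in `S` whose relative
interiors contain no point of `S`.  Given `S` and a rational number `A` it is NP-hard to decide
whether some triangulation of `S` has all triangle areas at most `A`.  This holds already for
`A = 1` and for sets of `n` points with coordinates in `{0, ..., n - 1}`.

Proof.  The sets have the form `S = B \ M` where `B` is the set of all lattice points of a box and
`M` is a set of interior lattice points (missing points).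

*Geometry.*  Call a triangle of doubled area at most 2 good.  If all triangles of a triangulation of
`B \ M` are good, then every missing point `q` is the midpoint of an edge `q - e q`, `q + e q`
with a primitive half vector `e q`: a lattice triangle of doubled area at most 2 that contains a
further lattice point has it as the midpoint of a side.  These edges do not cross and no three of
them bound a triangle of area 2.  Conversely, any family of such segments (a *medial family*)
extends to a triangulation, and then every triangle has no lattice points except its vertices and
midpoints of sides, so it is good.

*Reduction.*  The slope (positive or negative) of the half vectors is constant along wires, i.e. strips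
of width two of missing points, because adjacent segments with slopes of different sign cross.
Small clusters of missing points restrict the slopes of the wires that meet there: a formula of
3SAT is translated to a grid of tiles of size `64 x 62` of eight types.  Every literal is a row,
every clause a column; a signal (there is a true literal below) travels up the column, is negative at
the bottom and must be positive at the top, and can become positive only in a tile where the row
of a literal of the clause carries the value true.  Additional wires carry the constant negative
signal that is needed by the clusters, and the tiles of column 0 force that not both a variable and
its negation are true.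

*Verification.*  The necessary conditions of the tiles are proved by refutations that are checked by
the kernel: a primitive vector has one of 48 types (24 short vectors and 24 open cones between
consecutive short vectors), certificates eliminate types of the cells of a cluster by crossings that
hold for all vectors of the types, and by triangles of area 2.  The sufficiency is proved by
explicit families of half vectors for all types and states of tiles, checked by the kernel.
-/

set_option autoImplicit false

namespace Pool.Agent.Results.MP_f9630a_lc.MinMaxAreaNPHard

open Pool.Agent.NPC Pool.Agent.W982.TA.Q

/-- The decision version: the input is a list without repetitions of points with rational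
coordinates, not all on a line, and a rational number `A`; the question is whether some
triangulation of the set of these points has all triangle areas at most `A`. -/
def minMaxAreaProblem (I : List (ℚ × ℚ) × ℚ) : Prop :=
  I.1.Nodup ∧ ¬ Collinear ℝ {x | ∃ p ∈ I.1, x = pt p} ∧ MinMaxArea I.1.toFinset I.2

/-- **The decision version of the computation of a min-max area triangulation is NP-hard**, and
this is true already for the area bound 1 and sets of `n` points with coordinates in
`{0, ..., n - 1}`. -/
theorem result : NPHardP minMaxAreaProblem ∧
    ∀ L : Set (List Bool), InNP L → ∃ f : List Bool → List (ℚ × ℚ),
      PolyTime (fun w => bits (f w, (1 : ℚ))) ∧ ∀ w,
        (f w).Nodup ∧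
        (∀ p ∈ f w, ∃ a b : ℕ, a < (f w).length ∧ b < (f w).length ∧ p = ((a : ℚ), (b : ℚ))) ∧
        ¬ Collinear ℝ {x | ∃ p ∈ f w, x = pt p} ∧
        (w ∈ L ↔ MinMaxArea (f w).toFinset 1) := by
  refine ⟨?_, Pool.Agent.W982.TA.all⟩
  intro L hL
  obtain ⟨f, hf, h⟩ := Pool.Agent.W982.TA.all L hL
  refine ⟨fun w => bits (f w, (1 : ℚ)), hf, fun w => ?_⟩
  obtain ⟨h1, _, h3, h4⟩ := h w
  rw [h4]
  constructor
  · intro hm
    exact ⟨(f w, 1), rfl, h1, h3, hm⟩
  · rintro ⟨I, hI, _, _, hm⟩
    rw [bits_injective hI] at hm
    exact hm

end Pool.Agent.Results.MP_f9630a_lc.MinMaxAreaNPHard
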